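import Pool.Agent.N190.JM.Bridge

/-!
# Orlov's conjecture for varieties of Jordan-Lefschetz type

Let `W` be a Weil cohomology theory (any characteristic), `X` and `Y` smooth proper varieties of
the same dimension `n` with divisors satisfying hard Lefschetz, and `g`, `g'` Lie algebras of
operators on `H(X)` and `H(Y)` of Jordan-Lefschetz type. (By Looijenga, Lunts and Verbitsky the
Lie algebras generated by the `sl(2)`'s of all classes with hard Lefschetz have this property for
hyperkähler varieties and for abelian varieties; by Taelman a derived equivalence of hyperkähler
varieties exchanges these Lie algebras.) Let `u : H(X) → H(Y)` and `v : H(Y) → H(X)` be mutually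
inverse operators, given by combinations of cycles of all codimensions, which exchange `g` and
`g'` and have non-zero rank, possibly after composition with products of algebraic elements of `g`
and `g'`; for example the operators of a derived equivalence whose kernel has non-zero rank.

Then the conjecture B holds for `X` and `Y`, there is an isomorphism of degree zero with the same
properties which is multiplicative for the products with the classes of degree two belonging to
`g`, and the homological motives of `X` and `Y` are isomorphic: there are cycles of codimension `n`
on `X × Y` and `Y × X`, with rational coefficients, which induce mutually inverse isomorphisms in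
all theories with the same Betti numbers. If the kernel from the correspondences of a finer
category of motives (for example Chow motives) to the homological correspondences is nil for `X`
and for `Y`, then the motives of `X` and `Y` in this category are isomorphic.

Outline. (1) Conjecture B: `u` moves the class of a point to a class with non-zero component of
degree zero; the conjugates of the algebraic operators of `g'` give a product of algebraic elements
of `g` with non-zero rank, and the theorem on the conjecture B for varieties of Jordan-Lefschetz
type applies. (2) A polynomial argument replaces `u` by its product with exponentials of algebraic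
lowering operators, of non-zero rank. (3) In the Lie algebra of algebraic elements `u` is the
product of an exponential of degree two, an exponential of degree `-2` and an operator which
exchanges the degree operators up to sign; here one needs that derivations of degree zero are
semisimple plus nilpotent, and that the degree operators are semisimple. (4) The Weyl element of
the `sl(2)` of the divisor, which is algebraic by (1), corrects the sign. (5) The Künneth
projectors and an inverse given by a polynomial with rational coefficients in a rational cycle
which is invertible for one theory, give one pair of cycles for all theories. (6) A geometric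
series gives the isomorphism of motives.
-/

open Pool.Agent.H914 Pool.Agent.N190.JLS Pool.Agent.N190.JMS

universe u v w w'

namespace Pool.Agent.Results.MP_5c0b30_ag.JordanLefschetz

/-- **Isomorphisms of motives for varieties of Jordan-Lefschetz type.** -/
theorem result {k : Type u} [Field k] {𝒱 : VarClass k} {ops : CycleOps 𝒱}
    (W : WeilCohomology.{u, v} ops) (X Y : 𝒱.Obj) (D : X.Cycles) (E : Y.Cycles)
    (hD : X.IsCyc 1 D) (hE : Y.IsCyc 1 E) (hHL : HardLefschetz W X D)
    (hHL' : HardLefschetz W Y E) (g : Set (Mp W X X)) (g' : Set (Mp W Y Y))
    (hg : IsJordanLefschetz W X D g) (hg' : IsJordanLefschetz W Y E g') (hdim : X.dim = Y.dim)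
    (u : Mp W X Y) (v : Mp W Y X) (h : IsLieIsomorphism W X Y g g' u v)
    (hu : HasRank W X Y g u) (hv : HasRank W Y X g' v) :
    (LefschetzB W X D ∧ LefschetzB W Y E) ∧
    (∃ s s', IsLieIsomorphism W X Y g g' s s' ∧ IsMultiplicative (W.gr X) (W.gr Y) g s) ∧
    ∃ (z : (X.prod Y).Cycles) (z' : (Y.prod X).Cycles),
      (X.prod Y).IsCyc X.dim z ∧ (Y.prod X).IsCyc Y.dim z' ∧
      ∀ W' : WeilCohomology.{u, v} ops, SameBetti W W' X → SameBetti W W' Y →
        AreInverse W' X Y z z' ∧ ∀ 𝓜 : Motives.{u, w, w'} ops,
          KernelNilpotent W' 𝓜 X → KernelNilpotent W' 𝓜 Y → GivesIso 𝓜 X Y z :=
  main hdim hD hHL hg hE hHL' hg' h hu hv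

end Pool.Agent.Results.MP_5c0b30_ag.JordanLefschetz
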