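import Pool.Agent.N174.OV.Main

/-!
# Orlov's conjecture for varieties whose canonical classes satisfy hard Lefschetz

`𝒱` is a class of smooth projective geometrically irreducible varieties over the field `k` closed
under products (for example all of them), `C` the Chow groups with rational coefficients (in the
form of their formal properties, `IsChowProj`) and `H` a Weil cohomology theory (`IsWeilProj`).

Let `X` and `Y` be derived equivalent varieties of dimension `n`, `v = ch(E) √td(X × Y)` the class
of the kernel `E` of an equivalence, a sum of cycles of all codimensions on `X × Y`, and `w` the
class of the kernel of the inverse equivalence. Since equivalences commute with the Serre functors,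
`v` intertwines the correspondences `LX = Δ_* K_X` and `LY = Δ_* K_Y` (`IsIntertwiner`). Suppose that
the canonical classes satisfy hard Lefschetz: `K_X^r : H^(n-r)(X) → H^(n+r)(X)` is bijective for all
`r`, and the same for `Y`. They need not be ample or anti-ample: products of varieties with ample
and with anti-ample canonical class have this property, nef and big canonical classes with
semismall canonical morphism, and classes outside the zero set of some polynomials. More generally
`LX` and `LY` may be any correspondences of degree one satisfying hard Lefschetz and intertwined by
`v`, for example `Δ_*(a K_X + f^* A)` for equivalences relative to `f : X → B` and a divisor class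
`A` on `B`.

Theorem. The components of `v` of codimension less than `n` are homologically trivial. The component
`Z` of codimension `n` of `v` and the component `Z'` of codimension `n` of `w` are inverse to each
other modulo homological equivalence, so that the homological motives of `X` and `Y` are isomorphic,
compatibly with `LX` and `LY`; in particular `H^i(X)` and `H^i(Y)` are isomorphic by algebraic
cycles for all `i`. If `X` or `Y` is Kimura-finite, `Z` is an isomorphism `h(X) ≃ h(Y)` of Chow
motives.

The idea of the proof: a homogeneous map of negative degree which commutes with two hard Lefschetz
operators with the same centre is zero (on primitive classes `x` of degree `n - a` one has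
`LX^(a+1) x = 0`, while `LY^(a+1)` is injective in degrees below `n - a`). Hence `v` and `w` have
only components of nonnegative degree in cohomology, and the parts of degree zero are inverse to
each other. If `X` is Kimura-finite, homologically trivial self-correspondences **of all degrees**
of `X` are nilpotent (Pool/Agent/N174/KN), and this shows that `Z` is invertible; no property of `Y`
is needed.
-/

open CategoryTheory AlgebraicGeometry

set_option autoImplicit false

universe u v w

namespace Pool.Agent.Results.MP_5c0b30_ag.LefschetzCanonicalClasses

open Pool.Agent.H914 Pool.Agent.W492.BB Pool.Agent.W550.Corr Pool.Agent.TH133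
  Pool.Agent.TH829.Kim Pool.Agent.Y107 Pool.Agent.N174.OV

/-- Orlov's conjecture for intertwiners of correspondences satisfying hard Lefschetz: the component
of degree zero is an isomorphism of homological motives, and of Chow motives in the Kimura-finite
case. -/
theorem result {k : Type u} [Field k] {𝒱 : VarClass k} (C : TheoryData.{u, v, 0} 𝒱 ℚ)
    [IsChowProj C] {K : Type w} [Field K] (H : WeilTheoryData.{u, v, w} C K) [IsWeilProj H]
    (X Y : 𝒱.Obj) (hdim : X.dim = Y.dim) (LX : C.A (X.prod X)) (LY : C.A (Y.prod Y))
    (hX : HardLefschetzCor H X LX) (hY : HardLefschetzCor H Y LY) (v : C.A (X.prod Y))
    (w : C.A (Y.prod X)) (h : IsIntertwiner C LX LY v w) :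
    (∀ i < (X.dim : ℤ), ∀ z, IsComponent C v i z → H.cl z = 0) ∧
    ∃ (Z : C.A (X.prod Y)) (Z' : C.A (Y.prod X)), IsComponent C v X.dim Z ∧
      IsComponent C w Y.dim Z' ∧ C.comp LX Z = C.comp Z LY ∧ C.comp LY Z' = C.comp Z' LX ∧
      H.cl (C.comp Z Z') = H.cl (dg C X) ∧ H.cl (C.comp Z' Z) = H.cl (dg C Y) ∧
      (IsKimuraFinite C (ratFam C) X ∨ IsKimuraFinite C (ratFam C) Y → IsChowIso C Z) :=
  main H hdim hX hY h

end Pool.Agent.Results.MP_5c0b30_ag.LefschetzCanonicalClasses
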