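import Pool.Agent.N174.OC.Pub

/-!
# Orlov's conjecture in low dimension and the motives `h^(n-2)`, `h^(n-1)` and `h^n`

Let `X` and `Y` be smooth projective complex varieties of dimension `n` with equivalent derived
categories, `v = ch(E) √td(X × Y)` the class of the kernel `E` of an equivalence, a sum of cycles of
all codimensions on `X × Y`, and `w` the class of the kernel of the inverse equivalence. They are
inverse to each other as correspondences, and `v` respects the Mukai pairings on cohomology
(`IsDerivedPair`; Mukai, Orlov, Căldăraru). The correspondences and their action on the cohomology
with its Hodge structure are described by their formal properties (`CycTheory`).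

Theorem. Suppose that `X` satisfies the standard conjecture of Lefschetz type. Then `Y` satisfies it.
Let `T.Iso X Y j` mean that there are correspondences of degree zero which act as inverse
isomorphisms `H^j(X) ≃ H^j(Y)`, in other words, an isomorphism `h^j(X) ≃ h^j(Y)` of homological
motives. It holds for `j = 0`.

* If `h^j(X) ≃ h^j(Y)` for all `0 < j < n - 1` with `n - j` odd then `h^(n-1)(X) ≃ h^(n-1)(Y)`.
* If `h^j(X) ≃ h^j(Y)` for all `0 < j < n - 2` with `n - j = 2` modulo four then
  `h^(n-2)(X) ≃ h^(n-2)(Y)`.
* If `h^j(X) ≃ h^j(Y)` for all `0 < j < n` with `n - j` divisible by four then `h^n(X) ≃ h^n(Y)`.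
* If `h^j(X) ≃ h^j(Y)` for all `0 < j ≤ n - 3` then the homological motives of `X` and `Y` are
  isomorphic; and if moreover homologically trivial self-correspondences of `X` or of `Y` are
  nilpotent, for example if `X` is Kimura-finite, the Chow motives `h(X)` and `h(Y)` are isomorphic.

For `n ≤ 3` there is no condition. For `n = 4` the condition is `h^1(X) ≃ h^1(Y)`, a theorem of Popa
and Schnell. So Orlov's conjecture holds for complex threefolds and fourfolds `X`, up to homological
equivalence if `X` satisfies the standard conjecture of Lefschetz type, and for Chow motives if
moreover `X` is Kimura-finite, for example if the motive of `X` is of abelian type. Without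
conjectures, the theorem can be applied to motivated cycles in the place of algebraic cycles, for
which the standard conjecture is known (André): the motives for motivated cycles of derived
equivalent complex threefolds and fourfolds are isomorphic.

The proof replaces rational Hodge classes by algebraic classes in the theorem on Hodge structures
of the starting library (Pool/Agent/R941/OH). The algebra of algebraic self-correspondences of all
degrees of `X` acts on cohomology through a finite-dimensional algebra over `ℚ`, which contains the
Lefschetz operators and the Künneth projectors by the standard conjecture, and has a positive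
involution by the Hodge-Riemann relations; so it is semisimple. Conjugation by `v` identifies it
with the algebra of `Y`, which is therefore semisimple; regularity of this algebra gives the
standard conjecture for `Y` (compare Smirnov's theorem). The involutions of `X` and `Y` differ by
the action of the Mukai pairing, and the comparison of the hermitian forms gives relations, one for
every simple module, between the multiplicities of the motives `h^j` with `j` in a class modulo
four. These are solved for the largest `j < n` or `j = n`.
-/

open CategoryTheory

set_option autoImplicit false

universe u v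

namespace Pool.Agent.Results.MP_5c0b30_ag.LowDimension

open Pool.Agent.N174.OC

/-- The motives `h^(n-2)`, `h^(n-1)` and `h^n` of derived equivalent complex varieties, and Orlov's
conjecture if the motives `h^j` agree for `0 < j ≤ n - 3`. -/
theorem result {𝒪 : Type u} [Category.{v} 𝒪] [Preadditive 𝒪] [Linear ℚ 𝒪] {n : ℕ}
    (T : CycTheory 𝒪 n) (X Y : 𝒪) (hB : T.ConjB X) (v : X ⟶ Y) (w : Y ⟶ X)
    (h : T.IsDerivedPair v w) :
    T.ConjB Y ∧
    (1 ≤ n → (∀ j, 0 < j → j < n - 1 → (n - j) % 2 = 1 → T.Iso X Y j) → T.Iso X Y (n - 1)) ∧
    (2 ≤ n → (∀ j, 0 < j → j < n - 2 → (n - j) % 4 = 2 → T.Iso X Y j) → T.Iso X Y (n - 2)) ∧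
    ((∀ j, 0 < j → j < n → (n - j) % 4 = 0 → T.Iso X Y j) → T.Iso X Y n) ∧
    ((∀ j, 0 < j → j + 3 ≤ n → T.Iso X Y j) →
      T.HomIso X Y ∧ (T.HomNilpotent X ∨ T.HomNilpotent Y → T.ChowIso X Y)) :=
  main T hB h

end Pool.Agent.Results.MP_5c0b30_ag.LowDimension
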