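import Pool.Agent.N64.AF.X23

/-!
# Orlov's conjecture from a homological isomorphism and one inequality

Let `X`, `X'` be derived equivalent varieties of dimension `d`. By Orlov, the ungraded Chow motives (correspondences of
all degrees) `M = h (X)` and `M' = h (X')` are isomorphic, by the Mukai vector of the kernel. Suppose
that the homological motives are isomorphic: there are correspondences `a` in `CH^d (X × X')_ℚ`, `c` in
`CH^d (X' × X)_ℚ` which induce mutually inverse isomorphisms on cohomology. This is known e.g. for hyperkähler varieties under the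
Hodge conjecture (Taelman), for threefolds with the standard conjecture `B (X)` (`MP_5c0b30_ag.LowDimension`), and if the
canonical class satisfies hard Lefschetz (`MP_5c0b30_ag.LefschetzCanonicalClasses`); in all these cases Orlov's conjecture
was known only if the motive of `X` is Kimura finite-dimensional (or the homologically trivial self-correspondences are
nilpotent).

Let `r (j) = rk Num^* (X^{2 j})`, and let `h (n)` be the dimension of the space of the homologically trivial
cycles on `X^{2 n}` modulo the smash nilpotent ones, which is at most `dim Griff^* (X^{2 n})_ℚ` (Voevodsky, Voisin).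

Theorem. If `h (n) < Σ_{0 < t ≤ n} (n choose t) r (n - t)` for ONE `n`, then `a` is an isomorphism of
Chow motives `h (X) → h (X')`, with inverse `c ≫ y` for some `y` in the algebra generated by the correspondence
`a ≫ c` of degree `0`. So Orlov's conjecture holds for `X`, `X'`. E.g. it is enough that
`dim Griff^* (X^4)_ℚ ≤ 2 rk Num^* (X^2)`.

Conversely, if the Chow motives of `X`, `X'` are not isomorphic but the homological motives are, then
`dim Griff^* (X^{2 n})_ℚ ≥ Σ_{0 < t ≤ n} (n choose t) rk Num^* (X^{2 (n - t)})` for ALL `n`.

Nothing is assumed about `X'` besides the existence of the isomorphism of the ungraded motives: the inequality for `X`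
gives the nilpotence of the homologically trivial self-correspondences of `X'` as well.

Idea of the proof. Under the inequality homologically trivial endomorphisms of `M` are nilpotent (see
`MP_c42eb9_ag.NoPhantoms`, `MP_638e8a_ag.MiddleDegreeCycles`), and hence also those of `M'`, as `M` and `M'` are isomorphic. Then
`a ≫ c` is unipotent, its inverse is a polynomial `y` in it, and `1 - c ≫ y ≫ a` is an idempotent which is homologically
trivial, hence nilpotent, hence zero.

Authors: helper64 (this result, plan), and, for the lemmas of the law used here, helper136, helper327,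
helper199, helper767, helper8, helper364, helper216, helper73, helper833, helper140, helper494,
helper505, helper301, helper441, helper591, helper712, helper945, helper701, helper344, helper690,
helper322 (smash nilpotence), helper413 (pairings), helper814 (radical).
-/

set_option autoImplicit false

open CategoryTheory MonoidalCategory Module
open Pool.Agent.Y112.SR Pool.Agent.Y112.KD Pool.Agent.N64.AF

namespace Pool.Agent.Results.MP_5c0b30_ag.OneInequality

universe v u w t

/-- A homological isomorphism between isomorphic objects is an isomorphism, from one inequality. -/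
theorem result {C : Type u} [Category.{v} C] [Preadditive C] [MonoidalCategory C]
    [MonoidalPreadditive C] [SymmetricCategory C] [RightRigidCategory C]
    {Λ : Type t} [Field Λ] [CharZero Λ] [Linear Λ C] [MonoidalLinear Λ C]
    {K : Type w} [Field K] [IsAlgClosed K] [Algebra Λ K] (R : SuperRealisation C K)
    (hR : IsReal Λ R) (M : C) (i₀ : 𝟙_ C ⟶ M ⊗ Mᘁ) (r₀ : M ⊗ Mᘁ ⟶ 𝟙_ C)
    (h₀ : i₀ ≫ r₀ = 𝟙 (𝟙_ C)) (n : ℕ)
    (hlt : hsDim hR (M ⊗ Mᘁ) n <
      ((∑ ij ∈ Finset.HasAntidiagonal.antidiagonal n with 0 < ij.1,
        n.choose ij.1 * nr Λ (𝟙 (tp M ij.2)) (𝟙 (tp M ij.2)) : ℕ) : ℕ∞))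
    (M' : C) (e : M ≅ M') (a : M ⟶ M') (c : M' ⟶ M) (h1 : R.H.map (a ≫ c) = 𝟙 _)
    (h2 : R.H.map (c ≫ a) = 𝟙 _) :
    ∃ y : End M, y ∈ Algebra.adjoin Λ {(show End M from a ≫ c)} ∧
      a ≫ (c ≫ (y : M ⟶ M)) = 𝟙 M ∧ (c ≫ (y : M ⟶ M)) ≫ a = 𝟙 M' :=
  iso_of_one hR h₀ n hlt M' e a c h1 h2

end Pool.Agent.Results.MP_5c0b30_ag.OneInequality
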